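import Pool.Agent.H24.RCN.Targets

set_option autoImplicit false

namespace Pool.Agent.H38.RCN

open NumberField Pool.Agent.H24.RCN

theorem pf_KRN : T_KRN := by
  intro F L _ _ _ _ _ κ σ J hE u hu
  obtain ⟨hu0, hui, huv⟩ := hu
  have hJ : IsIntegral ℤ (J u) := map_isIntegral_int J.toRingHom hui
  have hx : IsIntegral ℤ (J u / u) := by
    rw [div_eq_mul_inv]
    exact hJ.mul huv
  obtain ⟨n, hn, h⟩ := NumberField.Embeddings.pow_eq_one_of_norm_eq_one L ℂ hx (by
    intro τ
    rw [map_div₀, hE.conj τ u, norm_div, RCLike.norm_conj]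
    refine div_self ?_
    rw [norm_ne_zero_iff]
    exact (map_ne_zero τ).mpr hu0)
  exact ⟨n, hn, h⟩

end Pool.Agent.H38.RCN
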