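import Pool.Agent.H24.RCN.Targets

set_option autoImplicit false

namespace Pool.Agent.H38.RCN

open NumberField Pool.Agent.H24.RCN

theorem pf_NUM : T_NUM := by
  intro d κ q hd hκ hq
  obtain ⟨n, rfl⟩ : ∃ n, d = n + 1 := ⟨d - 1, by omega⟩
  obtain ⟨m, rfl⟩ : ∃ m, κ = m + 2 := ⟨κ - 2, by omega⟩
  have hq10 : 10 ≤ q := by nlinarith
  have hn : 4 ≤ n := by omega
  have hm : 1 ≤ m := by omega
  rw [Nat.add_sub_cancel]
  set S := ∑ i ∈ Finset.range (n + 1), q ^ i with hS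
  have h1 : (q - 1) * S + 1 = q ^ (n + 1) := by
    have hg : ∀ N : ℕ, (q - 1) * (∑ i ∈ Finset.range N, q ^ i) + 1 = q ^ N := by
      intro N
      induction N with
      | zero => simp
      | succ N ih =>
        rw [Finset.sum_range_succ, mul_add]
        have e : (q - 1) * q ^ N + q ^ N = q ^ (N + 1) := by
          rw [← Nat.succ_mul, show Nat.succ (q - 1) = q by omega, pow_succ]
          ring
        omega
    exact hg (n + 1)
  have h2 : 9 * S < 10 * q ^ n := by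
    obtain ⟨c, rfl⟩ : ∃ c, q = c + 10 := ⟨q - 10, by omega⟩
    have h3 : c + 10 - 1 = c + 9 := by omega
    rw [h3, pow_succ] at h1
    by_contra hc
    push Not at hc
    have h4 : (c + 9) * (10 * (c + 10) ^ n) ≤ (c + 9) * (9 * S) := Nat.mul_le_mul_left _ hc
    nlinarith
  have h3 : 81 * S ^ 2 < 100 * q ^ (2 * n) := by
    have e : 100 * q ^ (2 * n) = (10 * q ^ n) ^ 2 := by rw [mul_pow, ← pow_mul]; ring
    have e' : 81 * S ^ 2 = (9 * S) ^ 2 := by ring
    rw [e, e']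
    exact Nat.pow_lt_pow_left h2 (by norm_num)
  have h4 : 5 * 2 ^ (m + 2) ≤ 4 * q ^ m := by
    clear hκ hq
    induction m, hm using Nat.le_induction with
    | base => norm_num; omega
    | succ m hm ih =>
      rw [pow_succ q, show m + 1 + 2 = (m + 2) + 1 by ring, pow_succ, ← mul_assoc, ← mul_assoc]
      exact Nat.mul_le_mul ih (by omega)
  have h5 : 100 * 4 ^ n ≤ 81 * 5 ^ n := by
    clear h1 h2 h3 hd
    induction n, hn using Nat.le_induction with
    | base => norm_num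
    | succ n hn ih => rw [pow_succ, pow_succ]; omega
  have h6 : (5 * 2 ^ (m + 2)) ^ n ≤ (4 * q ^ m) ^ n := Nat.pow_le_pow_left h4 n
  have h7 : 81 * 4 ^ n * (2 ^ (n * (m + 2)) * S ^ 2) < 81 * 4 ^ n * q ^ (n * (m + 2)) := by
    calc 81 * 4 ^ n * (2 ^ (n * (m + 2)) * S ^ 2)
        = (4 ^ n * 2 ^ (n * (m + 2))) * (81 * S ^ 2) := by ring
      _ < (4 ^ n * 2 ^ (n * (m + 2))) * (100 * q ^ (2 * n)) :=
          Nat.mul_lt_mul_of_pos_left h3 (by positivity)
      _ = 100 * 4 ^ n * (2 ^ (n * (m + 2)) * q ^ (2 * n)) := by ring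
      _ ≤ 81 * 5 ^ n * (2 ^ (n * (m + 2)) * q ^ (2 * n)) := Nat.mul_le_mul_right _ h5
      _ = 81 * q ^ (2 * n) * (5 * 2 ^ (m + 2)) ^ n := by
          rw [mul_pow, ← pow_mul 2 (m + 2) n, mul_comm (m + 2) n]; ring
      _ ≤ 81 * q ^ (2 * n) * (4 * q ^ m) ^ n := Nat.mul_le_mul_left _ h6
      _ = 81 * 4 ^ n * q ^ (n * (m + 2)) := by
          rw [mul_pow, ← pow_mul q m n, show n * (m + 2) = 2 * n + m * n by ring, pow_add]; ring
  exact Nat.lt_of_mul_lt_mul_left h7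

end Pool.Agent.H38.RCN
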