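import Pool.Agent.H24.RCN.Targets

set_option autoImplicit false

namespace Pool.Agent.H38.RCN

open NumberField Pool.Agent.H24.RCN

theorem pf_POW (h1 : T_PRD) (h2 : T_COP) : T_POW := by
  classical
  intro R _ _ _ r e d p k κ ζ hD hζ i hi hid
  have hprod : ∏ j ∈ Finset.range (d - 1),
      Ideal.span {1 - ζ ^ (j + 1) * ((r ^ e : ℕ) : R)} = (Ideal.span {(p : R) ^ (k / κ)}) ^ κ := by
    rw [Ideal.prod_span_singleton, h1 R d (r ^ e) ζ hD.hd hζ, Ideal.span_singleton_pow]
    congr 2
    have h := hD.eq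
    have h3 : k / κ * κ = k := Nat.div_mul_cancel hD.hκk
    rw [← pow_mul, h3]
    exact_mod_cast h
  obtain ⟨A, hA⟩ := Finset.exists_eq_pow_of_mul_eq_pow_of_coprime (R := Ideal R)
    (f := fun j => Ideal.span {1 - ζ ^ (j + 1) * ((r ^ e : ℕ) : R)}) (by
      intro a ha b hb hab
      rw [Ideal.isCoprime_span_singleton_iff]
      have ha' := Finset.mem_range.mp ha
      have hb' := Finset.mem_range.mp hb
      exact h2 R r e d p k κ ζ hD hζ (a + 1) (b + 1) (by omega) (by omega) (by omega) (by omega)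
        (by omega)) hprod (i - 1) (Finset.mem_range.mpr (by omega))
  refine ⟨A, ?_⟩
  have hi1 : i - 1 + 1 = i := by omega
  simpa only [hi1] using hA

end Pool.Agent.H38.RCN
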